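import Pool.Agent.R123.XI.Core

/-!
# The product formula for the cross-index fails for face posets of free `ℤ/4`-complexes

For the nice group `G = ℤ/4` there are finite free `G`-simplicial complexes `K₁` (a torus with 8
vertices) and `K₂` (two octahedra) with `Xind F(K₁) = Xind F(K₂) = 2` and
`Xind (F(K₁) × F(K₂)) ≤ 1`.

`K₁` is the covering of a Klein bottle that belongs to the kernel of a homomorphism `φ` from its
fundamental group onto `ℤ/4` which sends the torsion of the first homology group to `2`. So `φ` does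
not lift to the integers and there is no `G`-map from `F(K₁)` to a one-dimensional free `G`-complex;
but the restriction of `φ` to the subgroup of index two lifts, so that there is a map which is
equivariant for the subgroup `H` of order two. `K₂` is induced from the octahedron with its antipodal
action of `H`.
-/

set_option autoImplicit false

open Finset

namespace Pool.Agent.Results.MP_c446d6_co.ProductFormulaFails

/-- A finite group is nice if it is a cyclic `p`-group or a generalized quaternion group whose order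
is a power of two (`QuaternionGroup n` has order `4 n`). -/
def IsNice (G : Type) [Group G] : Prop :=
  (IsCyclic G ∧ ∃ p k : ℕ, p.Prime ∧ Nat.card G = p ^ k) ∨
    ∃ k : ℕ, 1 ≤ k ∧ Nonempty (G ≃* QuaternionGroup (2 ^ k))

/-- A finite free `G`-simplicial complex. The group acts on the set `V` which contains the vertices. -/
structure FreeComplex (G : Type) [Group G] where
  /-- the vertices -/
  V : Type
  /-- equality of vertices is decidable -/
  dec : DecidableEq V
  /-- the action on the vertices -/
  act : MulAction G V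
  /-- the nonempty simplices -/
  faces : Set (Finset V)
  /-- the complex is finite -/
  fin : faces.Finite
  /-- the simplices in `faces` are nonempty -/
  ne : ∀ s ∈ faces, s.Nonempty
  /-- nonempty subsets of simplices are simplices -/
  down : ∀ s ∈ faces, ∀ t : Finset V, t ⊆ s → t.Nonempty → t ∈ faces
  /-- the group acts by simplicial automorphisms -/
  inv : ∀ g : G, ∀ s ∈ faces, s.image (fun v => g • v) ∈ faces
  /-- the action is free on the simplices -/
  free : ∀ g : G, ∀ s ∈ faces, s.image (fun v => g • v) = s → g = 1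

attribute [instance] FreeComplex.dec FreeComplex.act

variable {G : Type} [Group G]

/-- The face poset: the nonempty simplices, ordered by inclusion. -/
def FacePoset (K : FreeComplex G) : Type := {s : Finset K.V // s ∈ K.faces}

instance (K : FreeComplex G) : PartialOrder (FacePoset K) where
  le s t := s.1 ⊆ t.1
  le_refl s := Subset.refl s.1
  le_trans _ _ _ h h' := Subset.trans h h'
  le_antisymm _ _ h h' := Subtype.ext (Subset.antisymm h h')

instance (K : FreeComplex G) : MulAction G (FacePoset K) where
  smul g s := ⟨s.1.image (fun v => g • v), K.inv g s.1 s.2⟩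
  one_smul s := Subtype.ext (by
    change s.1.image (fun v => (1 : G) • v) = s.1
    simp)
  mul_smul g h s := Subtype.ext (by
    change s.1.image (fun v => (g * h) • v) = (s.1.image (fun v => h • v)).image (fun v => g • v)
    rw [image_image]
    congr 1
    funext v
    exact mul_smul g h v)

/-- The `G`-poset `Q_n G`. -/
structure Cross (G : Type) (n : ℕ) where
  /-- the element of the group -/
  elt : G
  /-- the level -/
  lev : Fin (n + 1)

omit [Group G] in
@[ext] theorem Cross.ext' {n : ℕ} {a b : Cross G n} (h : a.elt = b.elt) (h' : a.lev = b.lev) :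
    a = b := by
  cases a; cases b; simp_all

instance (n : ℕ) : PartialOrder (Cross G n) where
  le a b := a = b ∨ a.lev < b.lev
  le_refl a := Or.inl rfl
  le_trans a b c h h' := by
    rcases h with rfl | h
    · exact h'
    · rcases h' with rfl | h'
      · exact Or.inr h
      · exact Or.inr (h.trans h')
  le_antisymm a b h h' := by
    rcases h with h | h
    · exact h
    · rcases h' with h' | h'
      · exact h'.symm
      · exact absurd (h.trans h') (lt_irrefl _)

instance (n : ℕ) : MulAction G (Cross G n) where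
  smul g a := ⟨g * a.elt, a.lev⟩
  one_smul a := Cross.ext' (one_mul a.elt) rfl
  mul_smul g h a := Cross.ext' (mul_assoc g h a.elt) rfl

/-- The cross-index of a `G`-poset: the least `n` such that there is a `G`-map to `Q_n G`. -/
noncomputable def Xind (G P : Type) [Group G] [PartialOrder P] [MulAction G P] : ℕ :=
  sInf {n : ℕ | ∃ ψ : P → Cross G n, Monotone ψ ∧ ∀ (g : G) (p : P), ψ (g • p) = g • ψ p}

/-! ### The counterexample -/

open Pool.Agent.R123.XI

/-- the cyclic group of order four -/
abbrev Z4 := Multiplicative (ZMod 4)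

/-- translation of the second coordinate -/
@[instance_reducible] def vact (m : ℕ) : MulAction Z4 (V m) where
  smul g v := (v.1, g.toAdd + v.2)
  one_smul v := Prod.ext rfl (zero_add v.2)
  mul_smul g h v := Prod.ext rfl (add_assoc g.toAdd h.toAdd v.2)

theorem image_eq (m : ℕ) (g : Z4) (s : Finset (V m)) :
    s.image (fun v => (vact m).smul g v) = sh g.toAdd s := rfl

/-- the torus -/
def C1 : FreeComplex Z4 where
  V := V 2
  dec := inferInstance
  act := vact 2
  faces := {s | K1 s}
  fin := Set.toFinite _
  ne s hs := hs.1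
  down s hs t ht h := K1_down t s hs ht h
  inv g s hs := K1_inv g.toAdd s hs
  free g s hs h := by
    have := free_of s hs.1 (K1_nopair s hs) g.toAdd h
    exact this

/-- the two octahedra -/
def C2 : FreeComplex Z4 where
  V := V 3
  dec := inferInstance
  act := vact 3
  faces := {s | K2 s}
  fin := Set.toFinite _
  ne s hs := hs.1
  down s hs t ht h := K2_down t s hs ht h
  inv g s hs := K2_inv g.toAdd s hs
  free g s hs h := by
    have := free_of s hs.1 (K2_nopair s hs) g.toAdd h
    exact this

theorem nice : IsNice Z4 := by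
  left
  refine ⟨inferInstance, 2, 2, Nat.prime_two, ?_⟩
  rw [Nat.card_eq_fintype_card]
  rfl

theorem free_poset (K : FreeComplex G) (g : G) (p : FacePoset K) (h : g • p = p) : g = 1 :=
  K.free g p.1 p.2 (congrArg Subtype.val h)

/-- the upper bound by the dimension -/
theorem exists_two (K : FreeComplex G) (hK : ∀ s ∈ K.faces, s.card ≤ 3) :
    ∃ ψ : FacePoset K → Cross G 2, Monotone ψ ∧ ∀ (g : G) (p : FacePoset K), ψ (g • p) = g • ψ p := by
  obtain ⟨c, hc⟩ := exists_color (free_poset K)
  have hcard : ∀ p : FacePoset K, p.1.card - 1 < 2 + 1 := by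
    intro p
    have := hK p.1 p.2
    omega
  refine ⟨fun p => ⟨c p, ⟨p.1.card - 1, hcard p⟩⟩, ?_, ?_⟩
  · intro p q hpq
    rcases eq_or_ne p q with rfl | hne
    · exact le_rfl
    · right
      have h1 : p.1 ⊂ q.1 := by
        refine lt_of_le_of_ne hpq ?_
        intro h
        exact hne (Subtype.ext h)
      have h2 := card_lt_card h1
      have h3 := (K.ne p.1 p.2).card_pos
      rw [Fin.lt_def]
      simp only
      omega
  · intro g p
    refine Cross.ext' (hc g p) ?_
    apply Fin.ext
    change ((p.1.image (fun v => g • v)).card - 1 : ℕ) = p.1.card - 1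
    rw [card_image_of_injective _ (MulAction.injective g)]


theorem K1_card (s : Finset (V 2)) (h : K1 s) : s.card ≤ 3 := by
  obtain ⟨_, k, t, ht, h2⟩ := h
  have h3 : ∀ t ∈ T, t.card ≤ 3 := by decide +kernel
  exact (card_le_card h2).trans (card_image_le.trans (h3 t ht))

theorem K2_card (s : Finset (V 3)) (h : K2 s) : s.card ≤ 3 := by
  have h1 : s.card = (s.image Prod.fst).card := by
    symm
    apply card_image_of_injOn
    intro u hu v hv he
    exact Prod.ext he ((h.2 u hu v hv).2 he)
  rw [h1]
  refine (card_le_univ _).trans ?_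
  simp

theorem sInf_eq_two {S : Set ℕ} (h2 : 2 ∈ S) (h0 : 0 ∉ S) (h1 : 1 ∉ S) : sInf S = 2 := by
  apply le_antisymm (Nat.sInf_le h2)
  have h := Nat.sInf_mem ⟨2, h2⟩
  by_contra hlt
  push Not at hlt
  interval_cases hS : sInf S
  · exact h0 h
  · exact h1 h

/-- an element of `Q_n G`, `n < 2`, as a pair -/
def toPair {n : ℕ} (hn : n < 2) (a : Cross Z4 n) : ZMod 4 × Fin 2 :=
  (a.elt.toAdd, ⟨a.lev.val, by have := a.lev.isLt; omega⟩)

theorem no_low1 (n : ℕ) (hn : n < 2) (ψ : FacePoset C1 → Cross Z4 n) (hm : Monotone ψ)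
    (he : ∀ (g : Z4) (p : FacePoset C1), ψ (g • p) = g • ψ p) : False := by
  classical
  refine no_map1 (fun s => if h : K1 s then toPair hn (ψ ⟨s, h⟩) else (0, 0))
    ⟨K1_down, K1_inv, ?_, ?_⟩
  · intro s t hs ht hst
    simp only [dif_pos hs, dif_pos ht]
    have h1 : (⟨s, hs⟩ : FacePoset C1) ≤ ⟨t, ht⟩ := hst
    rcases hm h1 with h2 | h2
    · exact Or.inl (congrArg (toPair hn) h2)
    · exact Or.inr h2
  · intro k s hs
    simp only [dif_pos hs, dif_pos (K1_inv k s hs)]
    have h1 : ψ ⟨sh k s, K1_inv k s hs⟩ = Multiplicative.ofAdd k • ψ ⟨s, hs⟩ :=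
      he (Multiplicative.ofAdd k) ⟨s, hs⟩
    exact congrArg (toPair hn) h1

theorem no_low2 (n : ℕ) (hn : n < 2) (ψ : FacePoset C2 → Cross Z4 n) (hm : Monotone ψ)
    (he : ∀ (g : Z4) (p : FacePoset C2), ψ (g • p) = g • ψ p) : False := by
  classical
  refine no_map2 (fun s => if h : K2 s then toPair hn (ψ ⟨s, h⟩) else (0, 0))
    ⟨K2_down, K2_inv, ?_, ?_⟩
  · intro s t hs ht hst
    simp only [dif_pos hs, dif_pos ht]
    have h1 : (⟨s, hs⟩ : FacePoset C2) ≤ ⟨t, ht⟩ := hst
    rcases hm h1 with h2 | h2
    · exact Or.inl (congrArg (toPair hn) h2)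
    · exact Or.inr h2
  · intro k s hs
    simp only [dif_pos hs, dif_pos (K2_inv k s hs)]
    have h1 : ψ ⟨sh k s, K2_inv k s hs⟩ = Multiplicative.ofAdd k • ψ ⟨s, hs⟩ :=
      he (Multiplicative.ofAdd k) ⟨s, hs⟩
    exact congrArg (toPair hn) h1

theorem xind1 : Xind Z4 (FacePoset C1) = 2 :=
  sInf_eq_two (exists_two C1 K1_card)
    (fun ⟨ψ, hm, he⟩ => no_low1 0 (by norm_num) ψ hm he)
    (fun ⟨ψ, hm, he⟩ => no_low1 1 (by norm_num) ψ hm he)

theorem xind2 : Xind Z4 (FacePoset C2) = 2 :=
  sInf_eq_two (exists_two C2 K2_card)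
    (fun ⟨ψ, hm, he⟩ => no_low2 0 (by norm_num) ψ hm he)
    (fun ⟨ψ, hm, he⟩ => no_low2 1 (by norm_num) ψ hm he)

theorem xprod : Xind Z4 (FacePoset C1 × FacePoset C2) ≤ 1 := by
  apply Nat.sInf_le
  have hv : ∀ q : FacePoset C2, ∃ v : V 3, v ∈ (show Finset (V 3) from q.1) := fun q => q.2.1
  choose w hw using hv
  refine ⟨fun p => ⟨Multiplicative.ofAdd (phi (w p.2).2 p.1.1).1, (phi (w p.2).2 p.1.1).2⟩, ?_, ?_⟩
  · rintro ⟨p, q⟩ ⟨p', q'⟩ ⟨h1, h2⟩
    have h3 : phi (w q).2 p.1 = phi (w q').2 p.1 :=
      phi_congr (K2_parity _ q'.2 _ _ (h2 (hw q)) (hw q')) _ p.2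
    rcases phi_mono (w q').2 p.1 p'.1 p.2 p'.2 h1 with h4 | h4
    · left
      simp only [h3, h4]
    · right
      simp only [h3]
      exact h4
  · rintro g ⟨p, q⟩
    have h5 : ((w q).1, g.toAdd + (w q).2) ∈ sh g.toAdd (show Finset (V 3) from q.1) := by
      rw [mem_sh]
      simpa using hw q
    have h6 : phi (w (g • q)).2 (sh g.toAdd p.1) =
        (g.toAdd + (phi (w q).2 p.1).1, (phi (w q).2 p.1).2) :=
      (phi_congr (K2_parity _ (g • q).2 _ _ (hw (g • q)) h5) _ (K1_inv _ _ p.2)).trans
        (phi_eqv _ _ _)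
    have h7 : (phi (w (g • q)).2 (sh g.toAdd p.1)).2 = (phi (w q).2 p.1).2 := by rw [h6]
    exact Cross.ext' (congrArg (fun z : ZMod 4 × Fin 2 => Multiplicative.ofAdd z.1) h6) h7

/-- **Q1 is false**: the product formula fails for face posets, for the nice group `ℤ/4`. -/
theorem result :
    (IsNice (Multiplicative (ZMod 4)) ∧
      ∃ K L : FreeComplex (Multiplicative (ZMod 4)),
        Xind (Multiplicative (ZMod 4)) (FacePoset K) = 2 ∧
        Xind (Multiplicative (ZMod 4)) (FacePoset L) = 2 ∧
        Xind (Multiplicative (ZMod 4)) (FacePoset K × FacePoset L) ≤ 1) ∧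
    ¬ ∀ (G : Type) [Group G] [Finite G], IsNice G → ∀ K L : FreeComplex G,
        Xind G (FacePoset K × FacePoset L) = min (Xind G (FacePoset K)) (Xind G (FacePoset L)) := by
  refine ⟨⟨nice, C1, C2, xind1, xind2, xprod⟩, fun h => ?_⟩
  have h1 := h Z4 nice C1 C2
  have h2 := xprod
  rw [h1, xind1, xind2] at h2
  norm_num at h2

end Pool.Agent.Results.MP_c446d6_co.ProductFormulaFails
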